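import Pool.Agent.BEP.Stmts

set_option autoImplicit false

/-! # Row BLP of squad BEP: balls (the proof is that of the row BLB of BER, file of helper47) -/

namespace Pool.Agent.BEP.H19

open Set Filter Topology MeasureTheory
open scoped InnerProductSpace ENNReal
open Pool.Agent.BE01 Pool.Agent.BEL Pool.Agent.BEF Pool.Agent.BEN Pool.Agent.BEH Pool.Agent.BEG
open Pool.Agent.BEO (Pl BB ev lap rho)
open Pool.Agent.BER Pool.Agent.BEP

theorem blp (ksy : Pool.Agent.BEG.KsyStmt)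
    (yas : Pool.Agent.BER.YasStmt) (nra : Pool.Agent.BER.NraStmt)
    (gpa : Pool.Agent.BER.GpaStmt) (jsd : Pool.Agent.BER.JsdStmt)
    (syb : Pool.Agent.BER.SybStmt) (spb : Pool.Agent.BER.SpbStmt)
    (ine : Pool.Agent.BER.IneStmt) : BlpStmt := by
  classical
  intro d p hd hd3 hp
  have hli : li (univ : Set (En d ≃ₗᵢ[ℝ] En d)) = GO d := by
    ext g
    simp [li, GO]
  obtain ⟨R, hR1⟩ : ∃ R : ℝ, R = 1 := ⟨_, rfl⟩
  have hR : 0 < R := by rw [hR1]; exact one_pos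
  rw [← hR1]
  obtain ⟨hDom, hSym⟩ := syb.1 d R (by omega) hR
  obtain ⟨K, hK, hKi⟩ := ksy d (BB d R) (GO d) (by omega) hDom hSym
  have hpow : ∀ (b : ℕ) (f : Lp ℝ 2 (mu (BB d R))),
      (f =ᵐ[mu (BB d R)] fun x => (‖x‖ ^ 2) ^ b) → f ∈ K := by
    intro b f hf
    exact (hKi f).2 (syb.2.2 d (BB d R) (fun r => (r ^ 2) ^ b) f hDom hSym hf)
  have hc : cd d ≠ 0 := by
    unfold cd
    have h1 : (d : ℝ) - 1 ≠ 0 := by
      have : (2 : ℝ) ≤ d := by exact_mod_cast hd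
      linarith
    have h2 : (d : ℝ) - 3 ≠ 0 := by
      intro h
      apply hd3
      have h3 : (d : ℝ) = 3 := by linarith
      exact_mod_cast h3
    exact div_ne_zero (mul_ne_zero h1 h2) (by norm_num)
  -- the zeros
  let Z : Set ℝ := {x | 0 < x ∧ jd d x = 0}
  obtain ⟨C, X0, hC, hX0, hY⟩ := yas (cd d)
  obtain ⟨-, -, -, -, -, y', hy'⟩ := jsd d hd
  obtain ⟨β, hβ⟩ := hY _ y' hy'
  have hZ : Zas (cd d) β Z := by
    refine ⟨C, X0, hC, hX0, ?_⟩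
    intro x hx hx0
    refine hβ x hx0 ?_
    show x ^ (((d : ℝ) - 1) / 2) * jd d x = 0
    rw [hx.2, mul_zero]
  have hn1 : ∀ n : ℕ, ∃ X1 : ℝ, 2 ≤ n → ∀ x : ℝ, X1 ≤ x → ¬ (x ∈ Z ∧ (n : ℝ) * x ∈ Z) := by
    intro n
    by_cases hn : 2 ≤ n
    · obtain ⟨X1, h⟩ := nra (cd d) β Z hc hZ n hn
      exact ⟨X1, fun _ => h⟩
    · exact ⟨0, fun h => absurd h hn⟩
  choose X1 hX1 using hn1
  set X : ℝ := ∑ n ∈ Finset.range (2 * p + 2), |X1 n| with hX
  have hXn : 0 ≤ X := Finset.sum_nonneg fun _ _ => abs_nonneg _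
  have hXle : ∀ n : ℕ, n ≤ 2 * p + 1 → X1 n ≤ X := by
    intro n hn
    refine (le_abs_self _).trans ?_
    exact Finset.single_le_sum (f := fun n => |X1 n|) (fun _ _ => abs_nonneg _)
      (Finset.mem_range.2 (by omega))
  obtain ⟨l, hl, u, huK, hu0, hue⟩ := ine d (BB d R) K hd hDom hK hpow ((X / R) ^ 2)
  have hl0 : 0 < l := lt_of_le_of_lt (sq_nonneg _) hl
  set x : ℝ := R * Real.sqrt l with hx
  have hsl : 0 < Real.sqrt l := Real.sqrt_pos.2 hl0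
  have hx0 : 0 < x := mul_pos hR hsl
  have hxR : (x / R) ^ 2 = l := by
    rw [hx, mul_div_cancel_left₀ _ hR.ne', Real.sq_sqrt hl0.le]
  have hxX : X ≤ x := by
    have h1 : X / R < Real.sqrt l := (Real.lt_sqrt (div_nonneg hXn hR.le)).2 hl
    rw [div_lt_iff₀ hR] at h1
    rw [hx, mul_comm]
    exact h1.le
  have hxZ : x ∈ Z := by
    refine ⟨hx0, ?_⟩
    by_contra h
    exact hu0 (spb d R x u hd hR hx0 ((hKi u).1 huK) (by rw [hxR]; exact hue) h)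
  have hnZ : ∀ n : ℕ, 1 ≤ n → ¬ ((n : ℝ) * x ∈ Z) →
      (n : ℝ) ^ 2 * l ∉ Sp (BB d R) (univ : Set (En d ≃ₗᵢ[ℝ] En d)) := by
    rintro n hn hnx ⟨u', hi, hu', he⟩
    rw [hli] at hi
    refine hu' ?_
    have hn0 : (0 : ℝ) < n := by exact_mod_cast hn
    have hnx0 : 0 < (n : ℝ) * x := mul_pos hn0 hx0
    refine spb d R ((n : ℝ) * x) u' hd hR hnx0 hi ?_ (fun h => hnx ⟨hnx0, h⟩)
    have h1 : ((n : ℝ) * x / R) ^ 2 = (n : ℝ) ^ 2 * l := by
      rw [mul_div_assoc, mul_pow, hxR]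
    rw [h1]
    exact he
  refine ⟨l, ⟨u, by rw [hli]; exact (hKi u).1 huK, hu0, hue⟩, ?_, ?_⟩
  · intro n _ h3 hn
    refine hnZ n (by omega) fun h => ?_
    exact hX1 n (by omega) x ((hXle n hn).trans hxX) ⟨hxZ, h⟩
  · intro J
    obtain ⟨N, hN⟩ := gpa (cd d) β Z hc hZ x p hx0
    by_cases h : ∃ n1 : ℕ, Odd n1 ∧ max J N < n1 ∧ n1 ≤ max J N + 2 * p ∧ (n1 : ℝ) * x ∈ Z
    · obtain ⟨n1, ho, h1, h2, h3⟩ := h
      have hJ : J ≤ max J N := le_max_left _ _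
      have hN' : N ≤ max J N := le_max_right _ _
      refine ⟨n1, by omega, ?_⟩
      intro n hn h4 h5
      refine hnZ n (by omega) fun h6 => ?_
      obtain ⟨r, hr⟩ := ho
      obtain ⟨t, ht⟩ := hn
      have h7 : n = n1 + 2 * (t - r) := by omega
      refine hN n1 (by omega) (t - r) (by omega) (by omega) ⟨h3, ?_⟩
      have h8 : (n : ℝ) = (n1 : ℝ) + 2 * ((t - r : ℕ) : ℝ) := by
        rw [h7]
        push_cast
        ring
      rw [← h8]
      exact h6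
    · refine ⟨max J N, le_max_left _ _, ?_⟩
      intro n hn h4 h5
      exact hnZ n (by omega) fun h6 => h ⟨n, hn, h4, h5, h6⟩

end Pool.Agent.BEP.H19
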