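import Pool.Agent.BEP.Stmts

set_option autoImplicit false

/-! # Row ORT of squad BEP: orthogonality of eigenfunctions for different eigenvalues -/

namespace Pool.Agent.BEP.H19

open Set Filter Topology MeasureTheory
open scoped InnerProductSpace ENNReal
open Pool.Agent Pool.Agent.BE01 Pool.Agent.BEG Pool.Agent.BEP

/-- row ORT -/
theorem ort (weo : Pool.Agent.BEO.WeoStmt) : OrtStmt := by
  intro d Ω l l' u u' hΩ hu hu' hll
  obtain ⟨G, hG, hw⟩ := hu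
  obtain ⟨G', hG', hw'⟩ := hu'
  have key : ∀ (l : ℝ) (u u' : Lp ℝ 2 (mu Ω)) (G G' : Lp (En d) 2 (mu Ω)),
      (∀ ψ, Tst Ω ψ → ∫ x, ⟪G x, gradient ψ x⟫_ℝ ∂(mu Ω) = l * ∫ x, u x * ψ x ∂(mu Ω)) →
      (u', G') ∈ H10 Ω → ∫ x, ⟪G x, G' x⟫_ℝ ∂(mu Ω) = l * ⟪u, u'⟫_ℝ := by
    intro l u u' G G' hw hG'
    have h1 := weo d Ω u' (l • u) G G' hΩ ?_ hG'
    · rw [h1]
      have h2 : ∫ x, (l • u : Lp ℝ 2 (mu Ω)) x * u' x ∂(mu Ω) =
          ⟪(l • u : Lp ℝ 2 (mu Ω)), u'⟫_ℝ := by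
        rw [L2.inner_def]
        refine integral_congr_ae (Filter.Eventually.of_forall fun x => ?_)
        show _ * _ = ⟪_, _⟫_ℝ
        rw [real_inner_eq_re_inner]
        simp [mul_comm]
      rw [h2, real_inner_smul_left]
    · intro ψ hψ
      rw [hw ψ hψ, ← integral_const_mul]
      refine integral_congr_ae ?_
      filter_upwards [Lp.coeFn_smul l u] with x hx
      rw [hx, Pi.smul_apply, smul_eq_mul, mul_assoc]
  have e1 := key l u u' G G' hw hG'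
  have e2 := key l' u' u G' G hw' hG
  have e3 : ∫ x, ⟪G x, G' x⟫_ℝ ∂(mu Ω) = ∫ x, ⟪G' x, G x⟫_ℝ ∂(mu Ω) := by
    refine integral_congr_ae (Filter.Eventually.of_forall fun x => ?_)
    exact real_inner_comm _ _
  rw [e1, e2, real_inner_comm u u'] at e3
  have e4 : (l - l') * ⟪u, u'⟫_ℝ = 0 := by
    rw [sub_mul]
    linarith
  exact (mul_eq_zero.1 e4).resolve_left (sub_ne_zero.2 hll)

end Pool.Agent.BEP.H19
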